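import Pool.Agent.Helper42.RZ.St.S6

/-! # RZ-S6b: a priori lower bound for the energy -/

set_option autoImplicit false

open MeasureTheory Set Metric Filter Topology
open scoped ENNReal

namespace Pool.Agent.Helper46.RZ

open Pool.Agent.Helper42.RZ

theorem bg_K {s : ℝ} (h0 : 0 < s) (h2 : s < 2) : bg (K s) = Cc s := by
  have e : bg (K s) = ∫ r in (0 : ℝ)..2, (1 / 2) * r ^ (1 - s) := by
    unfold bg
    refine intervalIntegral.integral_congr_ae ?_
    refine Filter.Eventually.of_forall fun r hr => ?_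
    rw [uIoc_of_le (by norm_num)] at hr
    have hr0 : 0 < r := hr.1
    have e1 : r ^ (1 - s) = r ^ (-s) * r := by
      rw [show (1 - s) = -s + 1 by ring, Real.rpow_add_one hr0.ne']
    rw [e1, K]
    ring
  rw [e, intervalIntegral.integral_const_mul, integral_rpow (Or.inl (by linarith)), Cc]
  have h3 : (1 - s + 1) = (1 - s) + 1 := rfl
  rw [Real.zero_rpow (by linarith), Real.rpow_add_one (by norm_num)]
  have h4 : (1 - s + 1) = 2 - s := by ring
  rw [h4]
  have h5 : (2 : ℝ) - s ≠ 0 := by linarith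
  field_simp
  ring

/-- the measure `w ^ (s - 1) / Γ (s) dw` on the positive half line -/
noncomputable def gam (s : ℝ) : Measure ℝ :=
  (volume.restrict (Ioi (0 : ℝ))).withDensity fun w => ENNReal.ofReal (w ^ (s - 1) / Real.Gamma s)

theorem gam_integral {s : ℝ} (h0 : 0 < s) (f : ℝ → ℝ) :
    ∫ w, f w ∂(gam s) = ∫ w in Ioi (0 : ℝ), (w ^ (s - 1) / Real.Gamma s) * f w := by
  unfold gam
  rw [integral_withDensity_eq_integral_toReal_smul₀]
  · refine setIntegral_congr_fun measurableSet_Ioi fun w hw => ?_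
    have hw0 : (0 : ℝ) < w := hw
    have h1 : 0 ≤ w ^ (s - 1) / Real.Gamma s := by
      have := Real.Gamma_pos_of_pos h0
      positivity
    simp only [ENNReal.toReal_ofReal h1, smul_eq_mul]
  · refine AEMeasurable.ennreal_ofReal ?_
    fun_prop
  · exact Filter.Eventually.of_forall fun w => ENNReal.ofReal_lt_top

theorem gam_integrable {s : ℝ} (h0 : 0 < s) (f : ℝ → ℝ)
    (hf : IntegrableOn (fun w => (w ^ (s - 1) / Real.Gamma s) * f w) (Ioi (0 : ℝ))) :
    Integrable f (gam s) := by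
  unfold gam
  rw [integrable_withDensity_iff_integrable_smul₀']
  · refine hf.congr_fun (fun w hw => ?_) measurableSet_Ioi
    have hw0 : (0 : ℝ) < w := hw
    have h1 : 0 ≤ w ^ (s - 1) / Real.Gamma s := by
      have := Real.Gamma_pos_of_pos h0
      positivity
    simp only [ENNReal.toReal_ofReal h1, smul_eq_mul]
  · refine AEMeasurable.ennreal_ofReal ?_
    fun_prop
  · exact Filter.Eventually.of_forall fun w => ENNReal.ofReal_lt_top

instance gam_sigmaFinite (s : ℝ) : SigmaFinite (gam s) := by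
  unfold gam
  exact SigmaFinite.withDensity_ofReal (μ := volume.restrict (Ioi (0 : ℝ)))
    (fun w => w ^ (s - 1) / Real.Gamma s)

theorem intOn_min {s : ℝ} (h0 : 0 < s) (h2 : s < 2) :
    IntegrableOn (fun w : ℝ => w ^ (s - 1) * min 1 ((w ^ 2)⁻¹)) (Ioi (0 : ℝ)) := by
  have hm : Measurable (fun w : ℝ => w ^ (s - 1) * min 1 ((w ^ 2)⁻¹)) := by fun_prop
  rw [← Ioc_union_Ioi_eq_Ioi (zero_le_one : (0 : ℝ) ≤ 1)]
  refine IntegrableOn.union ?_ ?_
  · have h := (intervalIntegral.intervalIntegrable_rpow' (a := (0 : ℝ)) (b := 1)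
      (show -1 < s - 1 by linarith)).1
    refine Integrable.mono' h hm.aestronglyMeasurable ?_
    refine (ae_restrict_iff' measurableSet_Ioc).2 (Filter.Eventually.of_forall fun w hw => ?_)
    have hw0 : 0 < w := hw.1
    rw [Real.norm_eq_abs, abs_of_nonneg (by positivity)]
    have : min 1 ((w ^ 2)⁻¹) ≤ (1 : ℝ) := min_le_left _ _
    have h3 : 0 ≤ w ^ (s - 1) := by positivity
    nlinarith
  · have h := integrableOn_Ioi_rpow_of_lt (show s - 3 < -1 by linarith) (zero_lt_one : (0 : ℝ) < 1)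
    refine Integrable.mono' h hm.aestronglyMeasurable ?_
    refine (ae_restrict_iff' measurableSet_Ioi).2 (Filter.Eventually.of_forall fun w hw => ?_)
    have hw1 : (1 : ℝ) < w := hw
    have hw0 : 0 < w := by linarith
    rw [Real.norm_eq_abs, abs_of_nonneg (by positivity)]
    have h3 : min 1 ((w ^ 2)⁻¹) ≤ (w ^ 2)⁻¹ := min_le_right _ _
    have h4 : 0 ≤ w ^ (s - 1) := by positivity
    have h5 : w ^ (s - 3) = w ^ (s - 1) * (w ^ 2)⁻¹ := by
      rw [show s - 3 = (s - 1) - 2 by ring, Real.rpow_sub hw0, Real.rpow_two]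
      rfl
    rw [h5]
    exact mul_le_mul_of_nonneg_left h3 h4

theorem apriori {s : ℝ} (h0 : 0 < s) (h2 : s < 2) : ∃ c : ℝ, 0 < c ∧ ∀ (N : ℕ) (x : Fin N → E3),
    Conf x → Cc s * (N : ℝ) ^ 2 - PS x (K s) ≤ c * (N : ℝ) ^ (1 + s / 2) := by
  have hG : 0 < Real.Gamma s := Real.Gamma_pos_of_pos h0
  set I : ℝ := ∫ w in Ioi (0 : ℝ), w ^ (s - 1) * min 1 ((2 * w ^ 2)⁻¹) with hI
  have hI0 : 0 ≤ I := by
    refine setIntegral_nonneg measurableSet_Ioi fun w hw => ?_
    have hw0 : (0 : ℝ) < w := hw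
    positivity
  refine ⟨I / Real.Gamma s + 1, by positivity, fun N x hx => ?_⟩
  rcases Nat.eq_zero_or_pos N with hN | hN
  · subst hN
    have : PS x (K s) = 0 := by simp [PS]
    rw [this]
    have h3 : (1 + s / 2) ≠ 0 := by linarith
    simp [Real.zero_rpow h3]
  have hN0 : (0 : ℝ) < N := by exact_mod_cast hN
  -- the weight
  set W : ℝ → ℝ := fun w => if 0 < w then w else 1 with hWdef
  have hWm : Measurable W := by
    refine Measurable.ite measurableSet_Ioi measurable_id measurable_const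
  have hWpos : ∀ w, 0 < W w := by
    intro w
    simp only [hWdef]
    split_ifs with h
    · exact h
    · norm_num
  have hWeq : ∀ w, 0 < w → W w = w := by
    intro w hw
    simp only [hWdef, if_pos hw]
  have hint : Integrable (fun w => min 1 ((W w) ^ 2)⁻¹) (gam s) := by
    refine gam_integrable h0 _ ?_
    have h : IntegrableOn (fun w : ℝ => (Real.Gamma s)⁻¹ * (w ^ (s - 1) * min 1 ((w ^ 2)⁻¹)))
        (Ioi (0 : ℝ)) := (intOn_min h0 h2).const_mul ((Real.Gamma s)⁻¹)
    refine h.congr_fun (fun w hw => ?_) measurableSet_Ioi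
    have hw0 : (0 : ℝ) < w := hw
    simp only [hWeq w hw0]
    rw [div_eq_mul_inv]
    ring
  have key := lb_general (gam s) W hWm hWpos hint x hx
  have hker : ∀ r : ℝ, 0 < r → ∫ w, Real.exp (-W w * r) ∂(gam s) = K s r := by
    intro r hr
    rw [gam_integral h0]
    have e1 : ∫ w in Ioi (0 : ℝ), (w ^ (s - 1) / Real.Gamma s) * Real.exp (-W w * r) =
        ∫ w in Ioi (0 : ℝ), (Real.Gamma s)⁻¹ * (w ^ (s - 1) * Real.exp (-(r * w))) := by
      refine setIntegral_congr_fun measurableSet_Ioi fun w hw => ?_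
      have hw0 : (0 : ℝ) < w := hw
      simp only [hWeq w hw0]
      rw [show -w * r = -(r * w) by ring]
      rw [div_eq_mul_inv]
      ring
    rw [e1, integral_const_mul, Real.integral_rpow_mul_exp_neg_mul_Ioi h0 hr, K]
    rw [one_div, Real.inv_rpow hr.le, Real.rpow_neg hr.le]
    field_simp
  have hbg : bg (fun r => ∫ w, Real.exp (-W w * r) ∂(gam s)) = Cc s := by
    rw [← bg_K h0 h2]
    unfold bg
    refine intervalIntegral.integral_congr_ae ?_
    refine Filter.Eventually.of_forall fun r hr => ?_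
    rw [uIoc_of_le (by norm_num)] at hr
    simp only [hker r hr.1]
  have hPS : PS x (fun r => ∫ w, Real.exp (-W w * r) ∂(gam s)) = PS x (K s) := by
    unfold PS
    refine Finset.sum_congr rfl fun p hp => ?_
    have hne : p.1 ≠ p.2 := (Finset.mem_offDiag.1 hp).2.2
    refine hker _ ?_
    rw [norm_pos_iff, sub_ne_zero]
    exact fun h => hne (hx.1 h)
  rw [hbg, hPS, gam_integral h0] at key
  have hlast : ∫ w in Ioi (0 : ℝ), (w ^ (s - 1) / Real.Gamma s) *
      min (N : ℝ) ((N : ℝ) ^ 2 / (2 * (W w) ^ 2)) = I / Real.Gamma s * (N : ℝ) ^ (1 + s / 2) := by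
    set b : ℝ := Real.sqrt N with hb
    have hb0 : 0 < b := Real.sqrt_pos.2 hN0
    have hb2 : b ^ 2 = N := Real.sq_sqrt hN0.le
    set g : ℝ → ℝ := fun w => (w ^ (s - 1) / Real.Gamma s) *
      min (N : ℝ) ((N : ℝ) ^ 2 / (2 * w ^ 2)) with hg
    have e1 : ∫ w in Ioi (0 : ℝ), (w ^ (s - 1) / Real.Gamma s) *
        min (N : ℝ) ((N : ℝ) ^ 2 / (2 * (W w) ^ 2)) = ∫ w in Ioi (0 : ℝ), g w := by
      refine setIntegral_congr_fun measurableSet_Ioi fun w hw => ?_
      have hw0 : (0 : ℝ) < w := hw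
      simp only [hWeq w hw0, hg]
    have e2 := integral_comp_mul_left_Ioi g 0 hb0
    rw [mul_zero, smul_eq_mul] at e2
    have e3 : ∫ w in Ioi (0 : ℝ), g w = b * ∫ w in Ioi (0 : ℝ), g (b * w) := by
      rw [e2]
      field_simp
    have e4 : ∫ w in Ioi (0 : ℝ), g (b * w) =
        ∫ w in Ioi (0 : ℝ), (b ^ (s - 1) * N / Real.Gamma s) *
          (w ^ (s - 1) * min 1 ((2 * w ^ 2)⁻¹)) := by
      refine setIntegral_congr_fun measurableSet_Ioi fun w hw => ?_
      have hw0 : (0 : ℝ) < w := hw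
      simp only [hg]
      have e5 : (N : ℝ) ^ 2 / (2 * (b * w) ^ 2) = N * (2 * w ^ 2)⁻¹ := by
        rw [mul_pow, hb2]
        field_simp
      have e6 : min (N : ℝ) (N * (2 * w ^ 2)⁻¹) = N * min 1 ((2 * w ^ 2)⁻¹) := by
        rw [mul_min_of_nonneg _ _ hN0.le, mul_one]
      rw [e5, e6, Real.mul_rpow hb0.le hw0.le]
      ring
    rw [e1, e3, e4, integral_const_mul, ← hI]
    have e7 : (N : ℝ) ^ (1 + s / 2) = N * b ^ s := by
      rw [Real.rpow_add hN0, Real.rpow_one, hb, Real.sqrt_eq_rpow, ← Real.rpow_mul hN0.le]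
      congr 2
      ring
    have e8 : b * b ^ (s - 1) = b ^ s := by
      rw [Real.rpow_sub_one hb0.ne']
      field_simp
    rw [e7]
    calc b * (b ^ (s - 1) * N / Real.Gamma s * I)
        = (b * b ^ (s - 1)) * N / Real.Gamma s * I := by ring
      _ = I / Real.Gamma s * (N * b ^ s) := by rw [e8]; ring
  rw [hlast] at key
  have hNp : 0 ≤ (N : ℝ) ^ (1 + s / 2) := by positivity
  calc Cc s * (N : ℝ) ^ 2 - PS x (K s) = (N : ℝ) ^ 2 * Cc s - PS x (K s) := by ring
    _ ≤ I / Real.Gamma s * (N : ℝ) ^ (1 + s / 2) := key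
    _ ≤ (I / Real.Gamma s + 1) * (N : ℝ) ^ (1 + s / 2) := by nlinarith

end Pool.Agent.Helper46.RZ
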